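import Pool.Agent.U72.CMO.Bas
import Pool.Agent.W683.MO.SP

set_option autoImplicit false

/-!
Package SP of project CM (MP_768c9c_nt): contribution of the small control primes, with
multiplicity (after `sp` in `Pool.Agent.W683.MO.SP`).
-/

namespace Pool.Agent.U324.CMO

open Finset Filter Topology
open scoped Classical
open Pool.Agent.W76.MO Pool.Agent.W683.MO Pool.Agent.U72.CMO

/-- task SP -/
theorem t_SP : T_SPC := by
  intro E _hG hAC hBC
  obtain ⟨JA, -, hA⟩ := hAC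
  obtain ⟨JB, -, hB⟩ := hBC
  refine ⟨JA + JB + 3, fun j hj i hij k hk => ?_⟩
  have hA' := hA j (by omega) i hij
  have hB' := hB j (by omega) i hij k hk
  have hδ := E.hδ
  have hiR : (3 : ℝ) ≤ i := by exact_mod_cast (by omega : 3 ≤ i)
  have hgu := gu_nonneg E j
  have hgh := gh_nonneg E j
  set a : ℝ := (2 : ℝ) ^ (E.δ / 2 * i) / (i : ℝ) ^ 50 with ha
  have hapos : 0 < a := by positivity
  set vu : ℕ → ℝ := fun p =>
    if (p : ℝ) ≤ (2 : ℝ) ^ (3 / 5 * (i : ℝ)) then 1 + 2 * (p * E.gu j p) else 1 with hvu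
  set vh : ℕ → ℝ := fun p =>
    if (p : ℝ) ≤ (2 : ℝ) ^ (1 / 20 * (i : ℝ)) then 1 + 2 * (p * E.gh j p) else 1 with hvh
  have hvh0 : ∀ p, 0 ≤ vh p := by
    intro p
    have := hgh p
    simp only [hvh]
    split_ifs <;> positivity
  have h1 : ∀ n ∈ cell E.δ i k,
      (1 / (n : ℝ)) * cmv (fun p => 1 + 2 * (p * E.gs j i p)) n ≤ (1 / 2 ^ i * a) * cmv vh n := by
    intro n hn
    have hn2 := cell_sub hδ.le hk hn
    have hnR : (2 : ℝ) ^ i ≤ n := by exact_mod_cast hn2.1.le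
    have h2 : cmv (fun p => 1 + 2 * (p * E.gs j i p)) n ≤ cmv vu n * cmv vh n := by
      rw [← cmv_mul_fun]
      apply cmv_mono
      · intro p _ _
        unfold Env.gs
        have h3 := hgu p
        have h4 := hgh p
        split_ifs <;> positivity
      · intro p _ _
        unfold Env.gs
        have h3 : 0 ≤ (p : ℝ) * E.gu j p := mul_nonneg (Nat.cast_nonneg p) (hgu p)
        have h4 : 0 ≤ (p : ℝ) * E.gh j p := mul_nonneg (Nat.cast_nonneg p) (hgh p)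
        simp only [hvu, hvh]
        split_ifs
        · nlinarith [mul_nonneg h3 h4]
        · nlinarith
        · nlinarith
        · nlinarith
    have h5 : cmv vu n ≤ a := hA' n (by have := hn2.1; omega) hn2.2
    have hB0 : 0 ≤ cmv vh n := cmv_nonneg _ _ fun p _ _ => hvh0 p
    have h6 : cmv (fun p => 1 + 2 * (p * E.gs j i p)) n ≤ a * cmv vh n :=
      h2.trans (mul_le_mul_of_nonneg_right h5 hB0)
    have h7 : 1 / (n : ℝ) ≤ 1 / 2 ^ i := one_div_le_one_div_of_le (by positivity) hnR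
    calc (1 / (n : ℝ)) * cmv (fun p => 1 + 2 * (p * E.gs j i p)) n ≤
        (1 / (n : ℝ)) * (a * cmv vh n) := mul_le_mul_of_nonneg_left h6 (by positivity)
      _ ≤ (1 / 2 ^ i) * (a * cmv vh n) :=
          mul_le_mul_of_nonneg_right h7 (mul_nonneg hapos.le hB0)
      _ = _ := by ring
  refine (sum_le_sum h1).trans ?_
  rw [← mul_sum]
  have h3 : (1 / 2 ^ i * a) * ∑ n ∈ cell E.δ i k, cmv vh n ≤ (1 / 2 ^ i * a) * (5 * hh E.δ i) :=
    mul_le_mul_of_nonneg_left hB' (by positivity)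
  refine h3.trans ?_
  have h4 := hh_le (δ_half E) i
  have h5 : (1 / 2 ^ i * a) * (5 * hh E.δ i) ≤
      (1 / 2 ^ i * a) * (5 * (2 : ℝ) ^ ((1 / 2 - E.δ) * i)) := by
    apply mul_le_mul_of_nonneg_left _ (by positivity)
    linarith
  refine h5.trans ?_
  have h6 : (1 / 2 ^ i * a) * (5 * (2 : ℝ) ^ ((1 / 2 - E.δ) * i)) = 5 / (i : ℝ) ^ 10 * E.w i := by
    unfold Env.w
    have e1 : (2 : ℝ) ^ (-(1 / 2 + E.δ / 2) * (i : ℝ)) * (2 : ℝ) ^ i =
      (2 : ℝ) ^ ((1 / 2 - E.δ) * i) * (2 : ℝ) ^ (E.δ / 2 * i) := exp_id1 E i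
    rw [ha]
    have e2 : (1 / 2 ^ i * ((2 : ℝ) ^ (E.δ / 2 * i) / (i : ℝ) ^ 50)) *
        (5 * (2 : ℝ) ^ ((1 / 2 - E.δ) * i)) = 5 / (i : ℝ) ^ 50 *
        (((2 : ℝ) ^ ((1 / 2 - E.δ) * i) * (2 : ℝ) ^ (E.δ / 2 * i)) / 2 ^ i) := by ring
    rw [e2, ← e1]
    field_simp
  rw [h6]
  have h7 : 5 / (i : ℝ) ^ 10 ≤ 1 / 256 := by
    rw [div_le_div_iff₀ (by positivity) (by norm_num)]
    have : (3 : ℝ) ^ 10 ≤ (i : ℝ) ^ 10 := pow_le_pow_left₀ (by norm_num) hiR 10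
    linarith
  have h8 := w_nonneg E i
  have h9 := mul_le_mul_of_nonneg_right h7 h8
  linarith

end Pool.Agent.U324.CMO
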